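import Pool.Agent.R361.EW.Main

open MeasureTheory ProbabilityTheory Set Filter Topology


namespace Pool.Agent.Results.MP_8414c7_pr.SmoothEdgeworth

/-- weighting functions: smooth on the line, closed support in `[0, 1]`, nonnegative, integral one -/
def IsWeight (w : ℝ → ℝ) : Prop :=
  ContDiff ℝ ((⊤ : ℕ∞) : WithTop ℕ∞) w ∧ tsupport w ⊆ Icc 0 1 ∧ (∀ x, 0 ≤ w x) ∧ ∫ x in (0:ℝ)..1, w x = 1

/-- `A_N = ∑_{n = 0}^{N - 1} w (n / N)` -/
noncomputable def wsum (w : ℝ → ℝ) (N : ℕ) : ℝ := ∑ n ∈ Finset.range N, w (n / N)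

/-- `S_N = A_N ^ (-1/2) ∑_{n = 1}^{N - 1} √(w (n / N)) X_n` -/
noncomputable def SN {Ω : Type*} (w : ℝ → ℝ) (X : ℕ → Ω → ℝ) (N : ℕ) (ω : Ω) : ℝ :=
  1 / Real.sqrt (wsum w N) * ∑ n ∈ Finset.Ico 1 N, Real.sqrt (w (n / N)) * X n ω

/-- the corrected normal distribution function, `m4` the fourth moment -/
noncomputable def GG (m4 : ℝ) (N : ℕ) (x : ℝ) : ℝ :=
  1 / Real.sqrt (2 * Real.pi) * (∫ t in Iic x, Real.exp (-t ^ 2 / 2)) -
    (m4 - 3) / (8 * Real.sqrt (2 * Real.pi) * N) * (x ^ 3 - 3 * x) * Real.exp (-x ^ 2 / 2)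

universe u

theorem result : ∃ C : ℝ, 0 < C ∧ ∃ w : ℝ → ℝ, IsWeight w ∧
    ∀ (Ω : Type u) [MeasurableSpace Ω] (P : Measure Ω) [IsProbabilityMeasure P] (X : ℕ → Ω → ℝ),
      iIndepFun (fun n : ℕ => X (n + 1)) P →
      (∀ n, 1 ≤ n → IdentDistrib (X n) (X 1) P P) →
      Integrable (fun ω => |X 1 ω| ^ 5) P →
      ∫ ω, X 1 ω ∂P = 0 → ∫ ω, X 1 ω ^ 2 ∂P = 1 → ∫ ω, X 1 ω ^ 3 ∂P = 0 →
      ∀ N : ℕ, 2 ≤ N → 0 < wsum w N → ∀ x : ℝ,
        |P.real {ω | SN w X N ω ≤ x} - GG (∫ ω, |X 1 ω| ^ 4 ∂P) N x| ≤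
          C * (∫ ω, |X 1 ω| ^ 5 ∂P) / (N : ℝ) ^ (3 / 2 : ℝ) := by
  obtain ⟨C, hC, hcore⟩ := Pool.Agent.R361.EW.core
  refine ⟨C, hC, Pool.Agent.R361.EW.ww, ⟨Pool.Agent.R361.EW.ww_contDiff, Pool.Agent.R361.EW.ww_supp,
    Pool.Agent.R361.EW.ww_nonneg, Pool.Agent.R361.EW.ww_int⟩, ?_⟩
  intro Ω _ P _ X hind hid h5 h1 h2 h3 N hN _ x
  have hX1 : AEMeasurable (X 1) P := (hid 1 le_rfl).aemeasurable_fst
  set μ := P.map (X 1) with hμ
  have hμp : IsProbabilityMeasure μ := Measure.isProbabilityMeasure_map hX1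
  have tr : ∀ f : ℝ → ℝ, Continuous f → ∫ y, f y ∂μ = ∫ ω, f (X 1 ω) ∂P := by
    intro f hf
    exact integral_map hX1 hf.aestronglyMeasurable
  have m5 : Integrable (fun y => |y| ^ 5) μ := by
    rw [hμ, integrable_map_measure (by fun_prop) hX1]
    exact h5
  have ipow : ∀ k : ℕ, k ≤ 5 → Integrable (fun y : ℝ => |y| ^ k) μ := by
    intro k hk
    refine ((integrable_const (1:ℝ)).add m5).mono' (by fun_prop) (Eventually.of_forall (fun y => ?_))
    simp only [norm_pow, Real.norm_eq_abs, abs_abs, Pi.add_apply]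
    rcases le_or_gt |y| 1 with hx | hx
    · have h1 : |y| ^ k ≤ 1 := pow_le_one₀ (abs_nonneg y) hx
      have := pow_nonneg (abs_nonneg y) 5
      linarith
    · have h1 : |y| ^ k ≤ |y| ^ 5 := pow_le_pow_right₀ hx.le hk
      linarith
  have q2 : ∫ y, y ^ 2 ∂μ = 1 := by rw [tr _ (by fun_prop)]; exact h2
  have hMpos : 0 < ∫ y, |y| ^ 5 ∂μ := by
    have p1 : ∀ y : ℝ, y ^ 2 ≤ (2/5) * |y| ^ 5 + 3/5 := by
      intro y
      rw [← sq_abs y]
      have hy : 0 ≤ |y| := abs_nonneg y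
      nlinarith [mul_nonneg (sq_nonneg (|y| - 1)) (show 0 ≤ 2 * |y| ^ 3 + 4 * |y| ^ 2 + 6 * |y| + 3 by positivity)]
    have i2 : Integrable (fun y : ℝ => y ^ 2) μ := by
      have := ipow 2 (by norm_num)
      simpa [sq_abs] using this
    have p2 : ∫ y, y ^ 2 ∂μ ≤ ∫ y, ((2/5) * |y| ^ 5 + 3/5) ∂μ :=
      integral_mono i2 ((m5.const_mul _).add (integrable_const _)) p1
    rw [integral_add (m5.const_mul _) (integrable_const _), integral_const_mul, q2] at p2
    simp at p2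
    linarith
  set M := ∫ y, |y| ^ 5 ∂μ with hM
  set lam := M ^ (1 / 3 : ℝ) with hlam
  have hlam3 : lam ^ 3 = M := by
    rw [hlam, ← Real.rpow_natCast, ← Real.rpow_mul hMpos.le]
    norm_num
  have hmom : Pool.Agent.R361.EW.Mom μ lam := by
    refine ⟨hμp, m5, ?_, q2, ?_, Real.rpow_pos_of_pos hMpos _, hlam3⟩
    · rw [tr _ (by fun_prop)]; exact h1
    · rw [tr _ (by fun_prop)]; exact h3
  -- the law of the sum
  have hmeas : ∀ n, 1 ≤ n → AEMeasurable (X n) P := fun n hn => (hid n hn).aemeasurable_fst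
  have hSmeas : AEMeasurable (SN Pool.Agent.R361.EW.ww X N) P := by
    unfold SN
    apply AEMeasurable.const_mul
    apply Finset.aemeasurable_fun_sum
    intro n hn
    exact (hmeas n (Finset.mem_Ico.mp hn).1).const_mul _
  set ν := P.map (SN Pool.Agent.R361.EW.ww X N) with hν
  have hνp : IsProbabilityMeasure ν := Measure.isProbabilityMeasure_map hSmeas
  have hSN : ∀ ω, SN Pool.Agent.R361.EW.ww X N ω = ∑ n ∈ Finset.Ico 1 N, Pool.Agent.R361.EW.th N n * X n ω := by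
    intro ω
    unfold SN Pool.Agent.R361.EW.th
    rw [Finset.mul_sum]
    apply Finset.sum_congr rfl
    intro n _
    rw [one_div]
    unfold wsum Pool.Agent.R361.EW.AN
    ring
  have hXint : ∀ n, 1 ≤ n → Integrable (X n) P := by
    intro n hn
    rw [(hid n hn).integrable_iff]
    have := ipow 1 (by norm_num)
    rw [hμ, integrable_map_measure (by fun_prop) hX1] at this
    refine this.mono hX1.aestronglyMeasurable (Eventually.of_forall (fun ω => ?_))
    simp
  have hSint : Integrable (SN Pool.Agent.R361.EW.ww X N) P := by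
    have : SN Pool.Agent.R361.EW.ww X N = fun ω => ∑ n ∈ Finset.Ico 1 N, Pool.Agent.R361.EW.th N n * X n ω :=
      funext hSN
    rw [this]
    apply integrable_finsetSum
    intro n hn
    exact (hXint n (Finset.mem_Ico.mp hn).1).const_mul _
  have hνint : Integrable (fun s => |s|) ν := by
    rw [hν, integrable_map_measure (by fun_prop) hSmeas]
    exact hSint.abs
  have hcf : ∀ t, charFun ν t = ∏ n ∈ Finset.Ico 1 N, charFun μ (Pool.Agent.R361.EW.th N n * t) := by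
    intro t
    have e1 : ν = P.map (fun ω => ∑ n ∈ Finset.Ico 1 N, (fun n ω => Pool.Agent.R361.EW.th N n * X n ω) n ω) := by
      rw [hν]; congr 1; exact funext hSN
    have hind2 : iIndepFun ((Finset.Ico 1 N).restrict (fun n ω => Pool.Agent.R361.EW.th N n * X n ω)) P := by
      have hinj : Function.Injective (fun i : (Finset.Ico 1 N : Finset ℕ) => i.1 - 1) := by
        intro i j hij
        have hi := (Finset.mem_Ico.mp i.2).1
        have hj := (Finset.mem_Ico.mp j.2).1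
        apply Subtype.ext
        simp only at hij
        omega
      have h6 := hind.precomp hinj
      have h7 := h6.comp (fun i : (Finset.Ico 1 N : Finset ℕ) => fun y : ℝ => Pool.Agent.R361.EW.th N i.1 * y)
        (fun i => by fun_prop)
      convert h7 using 2 with i
      ext ω
      have hi := (Finset.mem_Ico.mp i.2).1
      simp only [Finset.restrict_def, Function.comp]
      rw [Nat.sub_add_cancel hi]
    rw [e1, hind2.charFun_map_fun_finsetSum_eq_prod
      (fun n hn => (hmeas n (Finset.mem_Ico.mp hn).1).const_mul _)]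
    rw [Finset.prod_apply]
    apply Finset.prod_congr rfl
    intro n hn
    have hn1 := (Finset.mem_Ico.mp hn).1
    rw [charFun_map_mul_comp (hmeas n hn1), (hid n hn1).map_eq]
  have hfin := hcore μ lam hmom N hN ν hνint hcf x
  have r1 : ν.real (Iic x) = P.real {ω | SN Pool.Agent.R361.EW.ww X N ω ≤ x} := by
    rw [measureReal_def, hν, Measure.map_apply_of_aemeasurable hSmeas measurableSet_Iic]
    rfl
  have r2 : ∫ y, y ^ 4 ∂μ = ∫ ω, |X 1 ω| ^ 4 ∂P := by
    rw [tr _ (by fun_prop)]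
    congr 1
    ext ω
    rw [← abs_pow]
    exact (abs_of_nonneg (by positivity)).symm
  have r3 : M = ∫ ω, |X 1 ω| ^ 5 ∂P := tr (fun y => |y| ^ 5) (by fun_prop)
  have r4 : (lam / Real.sqrt N) ^ 3 = M / (N : ℝ) ^ (3 / 2 : ℝ) := by
    rw [div_pow, hlam3]
    congr 1
    rw [Real.sqrt_eq_rpow, ← Real.rpow_natCast, ← Real.rpow_mul (by positivity)]
    norm_num
  rw [r1, r2, r4, r3, Pool.Agent.R361.EW.gam_prim] at hfin
  rw [mul_div_assoc]
  exact hfin

end Pool.Agent.Results.MP_8414c7_pr.SmoothEdgeworth
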